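import Pool.Agent.T9h2.CV.Res

/-!
# Entire curves in the borderline covers of the projective plane

Let `ℓ 0, …, ℓ n` be linear forms in three variables which define lines in general position in the
projective plane, and let `X` be the surface in projective `n`-space of the points `(x 0 : ⋯ : x n)`
with `x j ^ m = ℓ j (u)` for a point `u` of the plane; it is a smooth complete intersection of
`n - 2` diagonal hypersurfaces of degree `m`. Entire curves in `X` are the same as entire curves in
the plane whose multiplicities of contact with the `n + 1` lines are divisible by `m`, with a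
choice of roots.

By Cartan's second main theorem such a curve in the plane is linearly degenerate if
`(n + 1) * (1 - 2 / m) > 3`. The theorem below treats the borderline case
`(n + 1) * (1 - 2 / m) = 3`, that is, `(m - 2) * (n - 2) = 6`: the Fermat surface of degree 8 in
projective 3-space (`n = 3`, `m = 8`; entire curves in it are given by the meromorphic solutions of
`f ^ 8 + g ^ 8 + h ^ 8 = 1`), the surfaces in `ℙ⁴` which are defined by two diagonal quintics
(`n = 4`, `m = 5`), the surfaces in `ℙ⁵` which are defined by three diagonal quartics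
(`n = 5`, `m = 4`), and the case `n = 8`, `m = 3`. All these surfaces are of general type (the
canonical bundle is `O ((m - 1) * (n - 2) - 3)`), and `c₁² < c₂` unless `n = 8`.

Elliptic curves do occur: if the nine lines are the inflectional tangents of a smooth plane cubic
curve and in general position, then the preimage of the cubic in `X` (`n = 8`, `m = 3`) is an
unramified covering of the cubic.
-/

set_option autoImplicit false

open Metric FF LinearAlgebra.Projectivization Pool.Agent.T9h2.LF Pool.Agent.T9h2.HY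
  Pool.Agent.T9h2.CV Pool.Agent.W602.GT
open Pool.Agent.N154.GG (HolMapOn kobayashi projDist)
open Pool.Agent.N155 (DerBound)

namespace Pool.Agent.Results.MP_2a5ae2_ag.BorderlineLines

/-- Let `X = XL L m` be the surface of the points `(x 0 : ⋯ : x n)` such that the `x j ^ m` are the
values of the linear forms `∑ k, L j k * u k` at some `u`, where the forms define `n + 1` lines in
general position in the plane, and `(m - 2) * (n - 2) = 6`.

* A nonconstant entire curve with bounded derivative in `X` is doubly periodic, with derivative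
  bounded below by a positive constant, and contained in `{P = 0}` for some form `P` which does not
  vanish on `X`; or `n = 3` and the curve lies in a line `x j = a * x i`, `x l = b * x k`.
* If `n` is not 3, then there is a finite set `E` of doubly periodic entire curves such that every
  nonconstant entire curve in `X` is `g ∘ h` with `g ∈ E` and with an entire function `h`. The
  images of all the entire curves are contained in `{P = 0}` for some form `P` which does not
  vanish on `X`, that is, `X` is pseudo-Brody hyperbolic.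
* If `n` is not 3, let `P` be a form of degree `e` which vanishes on the curves of `E`, and
  `ε > 0`. Then there is a constant `C` such that for `0 < δ ≤ 1` the derivative at the origin of a
  holomorphic map `f` from the disc of radius `r` to `X` is at most `C / (r * δ ^ ε)` if
  `‖P (f 0)‖ ≥ δ ‖f 0‖ ^ e`, and the Kobayashi distance of `p` and `q` in `X` is at least
  `δ ^ ε / C * min δ (d (p, q))` if `‖P (p)‖ ≥ δ ‖p‖ ^ e`. -/
theorem result {n m : ℕ} (h6 : (m - 2) * (n - 2) = 6) {L : Fin (n + 1) → Fin (2 + 1) → ℂ}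
    (hL : GenPos L) :
    (∀ f : ℂ → ℙ ℂ (Fin (n + 1) → ℂ), EntireCurve (XL L m) f → (∃ C, DerAtMost C f) →
      (DoublyPeriodic f ∧ (∃ c : ℝ, 0 < c ∧ DerAtLeast c f) ∧
        ∃ P : MvPolynomial (Fin (n + 1)) ℂ, IsForm P ∧ (∃ x ∈ XL L m, val x P ≠ 0) ∧
          ∀ z, val (f z).rep P = 0) ∨
      n = 3 ∧ ∃ (i j k l : Fin (n + 1)) (a b : ℂ), i ≠ j ∧ k ≠ l ∧ i ≠ k ∧ j ≠ l ∧ i ≠ l ∧
        j ≠ k ∧ a ≠ 0 ∧ b ≠ 0 ∧
        ∀ z, (f z).rep j = a * (f z).rep i ∧ (f z).rep l = b * (f z).rep k) ∧
    (n ≠ 3 → ∃ E : Set (ℂ → ℙ ℂ (Fin (n + 1) → ℂ)), E.Finite ∧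
      (∀ g ∈ E, EntireCurve (XL L m) g ∧ DoublyPeriodic g ∧ (∃ C, DerAtMost C g) ∧
        ∃ c : ℝ, 0 < c ∧ DerAtLeast c g) ∧
      (∀ f : ℂ → ℙ ℂ (Fin (n + 1) → ℂ), EntireCurve (XL L m) f →
        ∃ g ∈ E, ∃ h : ℂ → ℂ, Differentiable ℂ h ∧ ∀ z, f z = g (h z)) ∧
      (∃ P : MvPolynomial (Fin (n + 1)) ℂ, IsForm P ∧ (∃ x ∈ XL L m, val x P ≠ 0) ∧
        ∀ f : ℂ → ℙ ℂ (Fin (n + 1) → ℂ), EntireCurve (XL L m) f → ∀ z, val (f z).rep P = 0) ∧
      ∀ (P : MvPolynomial (Fin (n + 1)) ℂ) (e : ℕ), P.IsHomogeneous e →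
        (∀ g ∈ E, ∀ z, val (g z).rep P = 0) → ∀ ε : ℝ, 0 < ε → ∃ C : ℝ, 0 < C ∧
          ∀ δ : ℝ, 0 < δ → δ ≤ 1 →
          (∀ (r : ℝ) (f : ℂ → ℙ ℂ (Fin (n + 1) → ℂ)), 0 < r → HolMapOn (ball 0 r) f →
            (∀ z ∈ ball (0 : ℂ) r, (f z).rep ∈ XL L m) →
            δ * ‖(f 0).rep‖ ^ e ≤ ‖val (f 0).rep P‖ → DerBound (C / (r * δ ^ ε)) f 0) ∧
          ∀ p q : ℙ ℂ (Fin (n + 1) → ℂ), p.rep ∈ XL L m → q.rep ∈ XL L m →
            δ * ‖p.rep‖ ^ e ≤ ‖val p.rep P‖ →
            ENNReal.ofReal (δ ^ ε / C * min δ (projDist p q)) ≤ kobayashi (XL L m) p q) := by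
  refine ⟨fun f hf hC => brody_res hL h6 hf hC, fun h3 => ?_⟩
  have hn : 4 ≤ n := by
    by_contra h
    rw [show n - 2 = 0 by omega, mul_zero] at h6
    omega
  obtain ⟨hm, -⟩ := arith h6 hn
  obtain ⟨E, hE1, hE2, hE3, ⟨Q, hQ, hQ0, hQf⟩, hE4⟩ := main_cv hL h6 hn
  obtain ⟨P, hP, hPx, hPf⟩ := lift_form (m := m) hL (show 2 ≤ n by omega) (by omega) hQ hQ0
  exact ⟨E, hE1, hE2, hE3, ⟨P, hP, hPx, fun f hf => hPf f hf.2.1 (hQf f hf)⟩, hE4⟩

end Pool.Agent.Results.MP_2a5ae2_ag.BorderlineLines
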