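import Pool.Agent.T9h2.LF.FinA

/-!
Entire curves with bounded derivative in projective manifolds with positive 2-forms satisfy all
jet differential equations, unless they are doubly periodic.
-/

set_option autoImplicit false

open Filter Topology LinearAlgebra.Projectivization

namespace Pool.Agent.Results.MP_2a5ae2_ag.BrodyJets

open FF Pool.Agent.W602.GT Pool.Agent.T9h2.LF
open Pool.Agent.N154.GG (SmoothVariety HolIn)
open Pool.Agent.N155 (Degenerate)

/-- Let `X = {F = 0}` be a smooth projective variety of dimension `d ≥ 2` with positive alternating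
2-forms (for example, let `Λ² Ω` be ample; for surfaces, let the canonical bundle be ample). An
entire curve `f` in `X` with bounded derivative is annihilated by all holomorphic jet differentials
on `X`, of all orders and weights, which vanish on singular jets (they need not vanish anywhere
else), unless `f` is doubly periodic, algebraically degenerate and immersed, with a derivative
bounded below by a positive constant. -/
theorem result {n : ℕ} {ι : Type} {F : ι → MvPolynomial (Fin (n + 1)) ℂ} {d : ℕ} {K : Type}
    [Field K] [Algebra ℂ K] {y : Fin (n + 1) → K} {κ : Type}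
    {η : κ → (Fin (n + 1) → ℂ) → (Fin (n + 1) → ℂ) → (Fin (n + 1) → ℂ) → ℂ}
    (hX : SmoothVariety F d y) (hd : 2 ≤ d) (hη : AlternatingTwoForms (Cone F) d η)
    (f : ℂ → ℙ ℂ (Fin (n + 1) → ℂ)) (C : ℝ) (hf : HolIn F f) (hC : DerAtMost C f) :
    (∀ (k m : ℕ) (θ : (ℂ → Fin (n + 1) → ℂ) → ℂ → ℂ), JetDifferential (Cone F) d k m θ →
      Annihilates θ f) ∨
    (DoublyPeriodic f ∧ Degenerate y f ∧ ∃ c : ℝ, 0 < c ∧ DerAtLeast c f) := by
  by_cases h : ∀ (k m : ℕ) (θ : (ℂ → Fin (n + 1) → ℂ) → ℂ → ℂ),
    JetDifferential (Cone F) d k m θ → Annihilates θ f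
  · exact Or.inl h
  · right
    push Not at h
    obtain ⟨k, m, θ, hθ, hna⟩ := h
    obtain ⟨b, hb, hbf⟩ := atLeast_of_not_annihilates hX hθ hf hC hna
    have hp : DoublyPeriodic f := by
      by_contra hnp
      exact hna (annihilates_or hX hη hθ hf hC hnp)
    exact ⟨hp, degenerate_of_periodic hX hd hf hp, atLeast_of hb hbf⟩

end Pool.Agent.Results.MP_2a5ae2_ag.BrodyJets
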