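import Pool.Agent.T9h2.HY.Fin

/-!
Entire curves, holomorphic discs and the Kobayashi pseudodistance of projective manifolds with
positive 2-forms and with sufficiently many jet differentials: hyperbolicity modulo finitely many
doubly periodic curves.
-/

set_option autoImplicit false

open Metric LinearAlgebra.Projectivization

namespace Pool.Agent.Results.MP_2a5ae2_ag.HyperbolicModuloElliptic

open FF Pool.Agent.W602.GT Pool.Agent.T9h2.LF Pool.Agent.T9h2.HY
open Pool.Agent.N154.GG (SmoothVariety HolMapOn kobayashi projDist)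
open Pool.Agent.N155 (Degenerate DerBound)

/-- Let `X = {F = 0}` be a smooth projective variety of dimension `d ≥ 2` with alternating 2-forms,
twisted by `O (-1)`, which are positive outside the common zeros of the forms `G s` (for example,
any surface of general type, with `{G = 0} ≠ X`; if the canonical bundle of the surface is ample,
or if `Λ² Ω` is ample, with `G = 1`), and let `V` be a closed subset of `X`. Then

(I) there is a nonconstant entire curve in `V` with bounded derivative which is contained in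
`{G = 0}`, or is annihilated by all jet differentials of `X` (of all orders and weights, twisted or
not); or

(II) there is a finite set `E` of doubly periodic, algebraically degenerate entire curves in `V`,
with a derivative which is bounded below by a positive number, such that all nonconstant entire
curves in `V` are of the form `g ∘ h` with `g` in `E` and an entire function `h`; and `V` is
hyperbolic modulo `E`: if the form `P` of degree `e` vanishes on the curves in `E` and `ε > 0` then
there is a `C > 0` with the following property, for `0 < δ ≤ 1`: the derivative at `0` of the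
holomorphic maps `f` from the disc of radius `r` to `V` with `|P (f 0)| ≥ δ * ‖f 0‖ ^ e` is at most
`C / (r * δ ^ ε)`, and the Kobayashi pseudodistance in `V` from the points `p` with
`|P p| ≥ δ * ‖p‖ ^ e` to the point `q` is at least `δ ^ ε / C * min δ (d (p, q))`. -/
theorem result {n : ℕ} {ι : Type} {F : ι → MvPolynomial (Fin (n + 1)) ℂ} {d : ℕ} {K : Type}
    [Field K] [Algebra ℂ K] {y : Fin (n + 1) → K} {σ κ : Type}
    {G : σ → MvPolynomial (Fin (n + 1)) ℂ}
    {η : κ → (Fin (n + 1) → ℂ) → (Fin (n + 1) → ℂ) → (Fin (n + 1) → ℂ) → ℂ}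
    {V : Set (Fin (n + 1) → ℂ)}
    (hX : SmoothVariety F d y) (hd : 2 ≤ d) (hη : TwoFormsOff (Cone F) d G η)
    (hV : ClosedIn (Cone F) V) :
    (∃ f : ℂ → ℙ ℂ (Fin (n + 1) → ℂ), EntireCurve V f ∧ (∃ C, DerAtMost C f) ∧
      ((∀ s z, val (f z).rep (G s) = 0) ∨
        ∀ (k m : ℕ) (θ : (ℂ → Fin (n + 1) → ℂ) → ℂ → ℂ), JetDifferential (Cone F) d k m θ →
          Annihilates θ f)) ∨
    ∃ E : Set (ℂ → ℙ ℂ (Fin (n + 1) → ℂ)), E.Finite ∧
      (∀ g ∈ E, EntireCurve V g ∧ DoublyPeriodic g ∧ (∃ c : ℝ, 0 < c ∧ DerAtLeast c g) ∧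
        Degenerate y g) ∧
      (∀ f : ℂ → ℙ ℂ (Fin (n + 1) → ℂ), EntireCurve V f →
        ∃ g ∈ E, ∃ h : ℂ → ℂ, Differentiable ℂ h ∧ ∀ z, f z = g (h z)) ∧
      ∀ (P : MvPolynomial (Fin (n + 1)) ℂ) (e : ℕ), P.IsHomogeneous e →
        (∀ g ∈ E, ∀ z, val (g z).rep P = 0) → ∀ ε : ℝ, 0 < ε → ∃ C : ℝ, 0 < C ∧
          ∀ δ : ℝ, 0 < δ → δ ≤ 1 →
          (∀ (r : ℝ) (f : ℂ → ℙ ℂ (Fin (n + 1) → ℂ)), 0 < r → HolMapOn (ball 0 r) f →
            (∀ z ∈ ball (0 : ℂ) r, (f z).rep ∈ V) → δ * ‖(f 0).rep‖ ^ e ≤ ‖val (f 0).rep P‖ →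
            DerBound (C / (r * δ ^ ε)) f 0) ∧
          ∀ p q : ℙ ℂ (Fin (n + 1) → ℂ), p.rep ∈ V → q.rep ∈ V →
            δ * ‖p.rep‖ ^ e ≤ ‖val p.rep P‖ →
            ENNReal.ofReal (δ ^ ε / C * min δ (projDist p q)) ≤ kobayashi V p q := by
  by_cases h : AltI F d G V
  · exact Or.inl h
  · exact Or.inr (main hX hd hη hV h)

end Pool.Agent.Results.MP_2a5ae2_ag.HyperbolicModuloElliptic
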