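import Pool.Agent.T9h2.LF.FinA

/-!
Entire curves in projective manifolds with positive 2-forms whose derivative is bounded above and
below by positive constants: up to affine changes of the parameter there are only finitely many of
them, and they are doubly periodic.
-/

set_option autoImplicit false

open Filter Topology LinearAlgebra.Projectivization

namespace Pool.Agent.Results.MP_2a5ae2_ag.UniformlyImmersed

open FF Pool.Agent.W602.GT Pool.Agent.T9h2.LF
open Pool.Agent.N154.GG (SmoothVariety HolIn)
open Pool.Agent.N155 (Degenerate)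

/-- Let `X = {F = 0}` be a smooth projective variety of dimension `d ≥ 2` with positive alternating
2-forms (for example, let `Λ² Ω` be ample; for surfaces, let the canonical bundle be ample), and let
`c`, `C` be positive numbers. Then there is a finite set of doubly periodic, algebraically
degenerate entire curves in `X` such that every entire curve in `X` with a derivative between `c`
and `C` arises from one of them by an affine change of the parameter. -/
theorem result {n : ℕ} {ι : Type} {F : ι → MvPolynomial (Fin (n + 1)) ℂ} {d : ℕ} {K : Type}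
    [Field K] [Algebra ℂ K] {y : Fin (n + 1) → K} {κ : Type}
    {η : κ → (Fin (n + 1) → ℂ) → (Fin (n + 1) → ℂ) → (Fin (n + 1) → ℂ) → ℂ}
    (hX : SmoothVariety F d y) (hd : 2 ≤ d) (hη : AlternatingTwoForms (Cone F) d η)
    {c C : ℝ} (hc : 0 < c) :
    ∃ G : Set (ℂ → ℙ ℂ (Fin (n + 1) → ℂ)), G.Finite ∧
      (∀ g ∈ G, HolIn F g ∧ DerAtMost C g ∧ DerAtLeast c g ∧ DoublyPeriodic g ∧
        Degenerate y g) ∧
      ∀ f : ℂ → ℙ ℂ (Fin (n + 1) → ℂ), HolIn F f → DerAtMost C f → DerAtLeast c f →
        ∃ g ∈ G, ∃ α β : ℂ, α ≠ 0 ∧ ∀ z, f z = g (α * z + β) := by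
  obtain ⟨G, hG, h1, h2⟩ := finite_between hX hη (C := C) hc
  refine ⟨G, hG, fun g hg => ?_, h2⟩
  obtain ⟨k1, k2, k3⟩ := h1 g hg
  obtain ⟨L, hL, hbound⟩ := phi_bound n
  have hp := periodic_of_between hX hη k1 (fun z => hbound C g z (k1.1 z) (k2 z))
    (c := c / (4 * ((n : ℝ) + 1) ^ 2)) (by positivity) (phi_below k1.1 k3)
  exact ⟨k1, k2, k3, hp, degenerate_of_periodic hX hd k1 hp⟩

end Pool.Agent.Results.MP_2a5ae2_ag.UniformlyImmersed
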